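import Mathlib

set_option autoImplicit false

namespace Pool.Agent.Results.MP_1ca5ad_gt.Answer

open Set Function Filter Topology MeasureTheory

/-- Continuous real functions with the topology of pointwise convergence. -/
abbrev Cp (X : Type) [TopologicalSpace X] : Type := {f : X → ℝ // Continuous f}

/-- `Y` has a countable `F`-dense subset. -/
def FSep (Y : Type) [TopologicalSpace Y] : Prop :=
  ∃ A : Set Y, A.Countable ∧ ∀ y, y ∈ closure A ∧ ∀ A' ⊆ A, y ∈ closure A' →
    ∃ s : ℕ → Y, (∀ n, s n ∈ A') ∧ Tendsto s atTop (𝓝 y)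

/-- The pseudo-intersection number exceeds `ℵ₁`. -/
def PBig : Prop :=
  ∀ 𝓕 : Set (Set ℕ), Cardinal.mk 𝓕 ≤ Cardinal.aleph 1 →
    (∀ 𝓖 ⊆ 𝓕, 𝓖.Finite → (⋂₀ 𝓖).Infinite) → ∃ B : Set ℕ, B.Infinite ∧ ∀ S ∈ 𝓕, (B \ S).Finite

/-- The Sorgenfrey line. -/
def Sorg : Type := ℝ

instance : TopologicalSpace Sorg :=
  TopologicalSpace.generateFrom {s : Set ℝ | ∃ a b : ℝ, s = Ico a b}

theorem nb {X : Type} [TopologicalSpace X] (f : Cp X) {O : Set (Cp X)} (h : O ∈ 𝓝 f) :
    ∃ Y : Finset X, ∃ δ > 0, ∀ a : Cp X, (∀ x ∈ Y, dist (a.1 x) (f.1 x) < δ) → a ∈ O := by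
  obtain ⟨U, k, l⟩ := mem_nhds_subtype _ _ _ |>.1 h
  rw [nhds_pi, Filter.mem_pi'] at k
  obtain ⟨Y, t, k, m⟩ := k
  obtain ⟨δ, p, q⟩ := (((eventually_all_finset Y).2 fun x _ =>
    (eventually_closedBall_subset (k x))).filter_mono
      (nhdsWithin_le_nhds (s := Ioi 0))).and self_mem_nhdsWithin |>.exists
  exact ⟨Y, δ, q, fun a r => l (m fun x v => p x v (r x v).le)⟩

theorem meas {X : Type} [TopologicalSpace X] [MeasurableSpace X] (μ : Measure X)
    [IsProbabilityMeasure μ] (hm : ∀ f : X → ℝ, Continuous f → AEMeasurable f μ)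
    (hz : ∀ x, ∃ h : X → ℝ, Continuous h ∧ h x = 0 ∧ μ {y | h y = 0} = 0) : ¬ FSep (Cp X) := by
  classical
  rintro ⟨A, -, h⟩
  have cv : ∀ {s : ℕ → X → ℝ} {f : X → ℝ}, (∀ n, Continuous (s n)) →
      (∀ᵐ x ∂μ, Tendsto (s · x) atTop (𝓝 (f x))) →
      ∃ n, μ {x | 1 / 2 ≤ dist (s n x) (f x)} < 1 / 3 := fun k l =>
    ((tendstoInMeasure_iff_dist.1 (tendstoInMeasure_of_tendsto_ae
      (fun n => (hm _ (k n)).aestronglyMeasurable) l) _ one_half_pos).eventually_lt_const
        (by simp)).exists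
  have : ∀ f : Cp X, ∃ Y : Finset X, ∃ δ > 0, ∀ a ∈ A, (∀ x ∈ Y, dist (a.1 x) (f.1 x) < δ) →
      μ {x | 1 / 2 ≤ dist (a.1 x) (f.1 x)} < 1 / 3 := fun f => by
    obtain ⟨Y, δ, k, l⟩ := nb f (isClosed_closure.compl_mem_nhds fun k => by
      obtain ⟨s, l, m⟩ := (h f).2 {a ∈ A | 1 / 3 ≤ μ {x | 1 / 2 ≤ dist (a.1 x) (f.1 x)}}
        (sep_subset _ _) k
      obtain ⟨n, p⟩ := cv (fun n => (s n).2)
        (.of_forall (tendsto_pi_nhds.1 (tendsto_subtype_rng.1 m)))
      exact p.not_ge (l n).2)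
    exact ⟨Y, δ, k, fun a m p => not_le.1 fun q => l a p (subset_closure ⟨m, q⟩)⟩
  choose Y δ d k using this
  choose z z1 z2 z3 using hz
  let o : Cp X := ⟨0, continuous_const⟩
  let w : X → ℝ := fun x => |∏ y ∈ Y o, z y x|
  have c : Continuous w := (continuous_finsetProd _ fun y _ => z1 y).abs
  have w0 : ∀ (n : ℕ) x, 0 < 1 + n * w x := fun n x => by positivity
  obtain ⟨n, p⟩ := cv (s := fun n x => (1 + n * w x)⁻¹) (f := 0)
    (fun n => Continuous.inv₀ (by fun_prop) fun x => (w0 n x).ne')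
    (((eventually_all_finset (Y o)).2 fun y _ => compl_mem_ae_iff.2 (z3 y)).mono fun x l =>
      tendsto_inv_atTop_zero.comp (tendsto_atTop_add_const_left _ _
        (tendsto_natCast_atTop_atTop.atTop_mul_const (abs_pos.2 (Finset.prod_ne_zero_iff.2 l)))))
  let g : Cp X := ⟨fun x => n * w x, by fun_prop⟩
  obtain ⟨a, q, r⟩ := mem_closure_iff_nhds.1 (h g).1 _ ((eventually_all_finset (Y o ∪ Y g)).2
    fun x _ => ((continuous_apply x).comp continuous_subtype_val).continuousAt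
      (Metric.ball_mem_nhds _ (lt_min (d o) (d g))))
  have e := (measure_mono (μ := μ) (show univ ⊆ _ from fun x _ => ?_)).trans_lt
    ((measure_union_le _ _).trans_lt (ENNReal.add_lt_add ((measure_union_le _ _).trans_lt
      (ENNReal.add_lt_add p (k o a r fun x l => ?_))) (k g a r fun x l =>
        (q x (Finset.mem_union_right _ l)).trans_le (min_le_right _ _))))
  · simp [ENNReal.inv_three_add_inv_three, ENNReal.add_thirds] at e
  · by_contra l
    simp only [mem_union, mem_setOf, not_or, not_le, Real.dist_eq, abs_lt, o, g, Pi.zero_apply,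
      sub_zero] at l
    have := (inv_lt_comm₀ (w0 n x) one_half_pos).1 l.1.1.2
    linarith [l.1.2.2, l.2.1]
  · have := (Metric.mem_ball.1 (q x (Finset.mem_union_left _ l))).trans_le (min_le_left _ _)
    show dist _ 0 < _
    simpa [g, w, Finset.prod_eq_zero (f := fun y => z y x) l (z2 x)] using this

theorem sorg : ¬ FSep (Cp Sorg) := by
  have o : ∀ (x : ℝ) (U : Set Sorg), IsOpen U → x ∈ U → U ∈ 𝓝[≥] x := fun x U h => by
    induction h with
    | basic s k => obtain ⟨a, b, rfl⟩ := k; exact Ico_mem_nhdsGE_of_mem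
    | univ => exact fun _ => univ_mem
    | inter _ _ _ _ k l => exact fun m => inter_mem (k m.1) (l m.2)
    | sUnion _ _ k => exact fun ⟨s, l, m⟩ => mem_of_superset (k s l m) (subset_sUnion_of_mem l)
  refine @meas Sorg _ (inferInstanceAs (MeasurableSpace ℝ)) ((volume : Measure ℝ).restrict (Icc 0 1))
    (show IsProbabilityMeasure ((volume : Measure ℝ).restrict (Icc 0 1)) from ⟨by simp⟩) (fun f h => (measurable_of_isOpen fun U k => MeasurableSet.of_mem_nhdsGT (α := ℝ)
      fun x l => nhdsWithin_mono x Ioi_subset_Ici_self (o x _ (k.preimage h) l)).aemeasurable) fun (x : ℝ) =>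
    ⟨fun y : ℝ => y - x, continuous_iff_continuousAt.2 fun (y : ℝ) => ?_, sub_self x,
      show (volume : Measure ℝ).restrict (Icc 0 1) {y : ℝ | y - x = 0} = 0 by simp [sub_eq_zero]⟩
  refine Metric.tendsto_nhds.2 fun ε k => mem_of_superset ((TopologicalSpace.isOpen_generateFrom_of_mem
    ⟨y, y + ε, rfl⟩ : IsOpen (X := Sorg) _).mem_nhds ⟨le_rfl, lt_add_of_pos_right y k⟩) fun (v : ℝ) l => ?_
  simp only [mem_setOf, Real.dist_eq, abs_lt]
  constructor <;> linarith [l.1, l.2]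

theorem ex (hp : PBig) : ∃ (X : Type) (_ : TopologicalSpace X), T35Space X ∧ FSep (Cp X) ∧
    ¬ FrechetUrysohnSpace (Cp X) := by
  classical
  let X := (Cardinal.aleph 1).out
  have hX : Cardinal.mk X = Cardinal.aleph 1 := Cardinal.mk_out _
  obtain ⟨c⟩ : Nonempty (X ↪ (ℕ → Bool)) := (Cardinal.le_def _ _).1
    (by simpa [hX] using Cardinal.aleph_one_le_continuum)
  have : Nonempty X := Cardinal.mk_ne_zero_iff.1 (hX ▸ (Cardinal.aleph_pos 1).ne')
  letI : TopologicalSpace X := ⊥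
  have : DiscreteTopology X := ⟨rfl⟩
  refine ⟨X, inferInstance, inferInstance, ?_, fun h => ?_⟩
  · let φ : ℕ × (List Bool →₀ ℚ) → Cp X := fun q =>
      ⟨fun x => q.2 (List.ofFn fun i : Fin q.1 => c x i), continuous_of_discreteTopology⟩
    refine ⟨range φ, countable_range _, fun y => ⟨mem_closure_iff_nhds.2 fun O k => ?_,
      fun A k l => ?_⟩⟩
    · obtain ⟨Y, δ, d, l⟩ := nb y k
      obtain ⟨n, m⟩ : ∃ n, ∀ a ∈ Y, ∀ b ∈ Y, (∀ k < n, c a k = c b k) → a = b :=
        ((eventually_all_finset (l := atTop) Y).2 fun a _ =>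
          (eventually_all_finset Y).2 fun b _ => by
          by_cases e : a = b
          · exact .of_forall fun _ _ => e
          · obtain ⟨k, l⟩ := ne_iff.1 (c.injective.ne e)
            exact (eventually_gt_atTop k).mono fun n m p => (l (p k m)).elim).exists
      choose r hr using fun x => exists_rat_near (y.1 x) d
      refine ⟨_, l _ fun x p => ?_, (n, ∑ a ∈ Y, Finsupp.single (List.ofFn fun i : Fin n => c a i)
        (r a)), rfl⟩
      simp only [φ, Finsupp.finset_sum_apply]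
      rw [Finset.sum_eq_single_of_mem x p fun b q v => Finsupp.single_eq_of_ne fun w =>
        v (m x p b q fun i j => congrFun (List.ofFn_injective w) ⟨i, j⟩).symm,
        Finsupp.single_eq_same, dist_comm]
      exact hr x
    by_cases m : y ∈ A
    · exact ⟨fun _ => y, fun _ => m, tendsto_const_nhds⟩
    obtain ⟨e, he⟩ := ((countable_range φ).mono k).exists_eq_range (closure_nonempty_iff.1 ⟨y, l⟩)
    let S : X × ℕ → Set ℕ := fun p => {n | dist ((e n).1 p.1) (y.1 p.1) < 1 / (p.2 + 1)}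
    obtain ⟨B, b1, b2⟩ := hp (range S) (Cardinal.mk_range_le.trans (by simp [hX])) fun 𝓖 p q r => by
      have : (e '' ⋂₀ 𝓖)ᶜ ∈ 𝓝 y := (r.image e).isClosed.compl_mem_nhds fun ⟨n, _, v⟩ =>
        m (he.ge ⟨n, v⟩)
      choose! j hj using fun G (u : G ∈ 𝓖) => p u
      obtain ⟨a, ⟨v, w⟩, z⟩ := mem_closure_iff_nhds.1 l _ (inter_mem this ((eventually_all_finite q).2
        fun G _ => ((continuous_apply (j G).1).comp continuous_subtype_val).continuousAt
          (Metric.ball_mem_nhds _ (Nat.one_div_pos_of_nat (n := (j G).2)))))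
      obtain ⟨n, rfl⟩ := he.le z
      exact v ⟨n, fun G u => hj G u ▸ w G u, rfl⟩
    refine ⟨fun n => e (b1.natEmbedding _ n), fun n => he.ge ⟨_, rfl⟩, tendsto_subtype_rng.2
      (tendsto_pi_nhds.2 fun x => Metric.tendsto_nhds.2 fun ε p => ?_)⟩
    obtain ⟨i, q⟩ := exists_nat_one_div_lt p
    refine Nat.cofinite_eq_atTop ▸ mem_of_superset ((Subtype.val_injective.comp
      (b1.natEmbedding _).injective).tendsto_cofinite (b2 _ ⟨(x, i), rfl⟩).compl_mem_cofinite)
      fun n r => lt_trans (not_not.1 fun v => r ⟨(b1.natEmbedding _ n).2, v⟩) q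
  obtain ⟨s, k, l⟩ := mem_closure_iff_seq_limit.1 (mem_closure_iff_nhds.2 fun O k => by
    obtain ⟨Y, δ, d, l⟩ := nb _ k
    exact ⟨_, l _ fun x p => by simpa [p], Y, rfl⟩ : (⟨0, continuous_const⟩ : Cp X) ∈ closure (range
      fun Y : Finset X => ⟨fun x => if x ∈ Y then 0 else 1, continuous_of_discreteTopology⟩))
  choose Y hY using k
  obtain ⟨x, p⟩ := (ne_univ_iff_exists_notMem (⋃ n, (Y n : Set X))).1 fun p => by
    have := Cardinal.le_aleph0_iff_set_countable.2 (p ▸ countable_iUnion fun n =>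
      (Y n).countable_toSet :)
    simp [hX] at this
  have := tendsto_pi_nhds.1 (tendsto_subtype_rng.1 l) x
  simp only [mem_iUnion, Finset.mem_coe, not_exists] at p
  simp [← hY, p] at this

theorem result : (PBig → ∃ (X : Type) (_ : TopologicalSpace X), T35Space X ∧ FSep (Cp X) ∧
      ¬ FrechetUrysohnSpace (Cp X)) ∧ ¬ FSep (Cp Sorg) ∧
    ∀ (X : Type) [TopologicalSpace X] [MeasurableSpace X] (μ : Measure X), IsProbabilityMeasure μ →
      (∀ f : X → ℝ, Continuous f → AEMeasurable f μ) →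
      (∀ x, ∃ h : X → ℝ, Continuous h ∧ h x = 0 ∧ μ {y | h y = 0} = 0) → ¬ FSep (Cp X) :=
  ⟨ex, sorg, fun _ _ _ μ _ => meas μ⟩

end Pool.Agent.Results.MP_1ca5ad_gt.Answer
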